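import Pool.Agent.W596.Doyle.Liouville

/-!
# Locally univalent hexagonal circle packings are regular or Doyle spirals

Idea of the proof. Let `R` be the label of a locally univalent packing. The radii of neighbouring
circles have bounded ratio (ring lemma for six petals with disjoint interiors). Hence
`u = log (R (v + e) / R v)` is a bounded function, for `e = (1, 0)` and `e = (0, 1)`. The labels `R`
and `R (· + e)` have the same angle sums; joining them by a log-linear path and using the symmetry
`∂ angle_v / ∂ log R_w = ∂ angle_w / ∂ log R_v`, `0 < ∂ angle_v / ∂ log R_w ≤ 1 / 2` in each face,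
`u` satisfies a Caccioppoli inequality with bounded conductances, and a logarithmic cutoff shows that
`u` is constant (the triangular lattice is recurrent).
-/

set_option autoImplicit false

namespace Pool.Agent.Results.MP_5725d1_gt.OnlyDoyleSpirals

/-- The six directions from a vertex of the hexagonal complex to its neighbours, in
counterclockwise order. The vertex `(n, m)` stands for the lattice point `n + m ω`,
`ω = exp (i π / 3)`. -/
def dir : Fin 6 → ℤ × ℤ := ![(1, 0), (0, 1), (-1, 1), (-1, 0), (0, -1), (1, -1)]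

/-- The angle opposite the side `s + t` in the Euclidean triangle with sides `r + s`, `r + t`,
`s + t` (law of cosines). -/
noncomputable def angle (r s t : ℝ) : ℝ :=
  Real.arccos (((r + s) ^ 2 + (r + t) ^ 2 - (s + t) ^ 2) / (2 * (r + s) * (r + t)))

/-- The angle sum of the label `R` at the vertex `v`: the sum of the angles at `v` over the six
faces containing `v`. -/
noncomputable def angleSum (R : ℤ × ℤ → ℝ) (v : ℤ × ℤ) : ℝ :=
  ∑ k : Fin 6, angle (R v) (R (v + dir k)) (R (v + dir (k + 1)))

/-- `R` is a packing label: it is positive and all its angle sums are `2 π`. -/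
def IsPackingLabel (R : ℤ × ℤ → ℝ) : Prop :=
  (∀ v, 0 < R v) ∧ ∀ v, angleSum R v = 2 * Real.pi

/-- The circles with centres `z v` and radii `R v` form a circle packing for the hexagonal complex:
`R` is a packing label, the circles of adjacent vertices are externally tangent, and every face is
positively oriented. -/
structure IsCirclePacking (z : ℤ × ℤ → ℂ) (R : ℤ × ℤ → ℝ) : Prop where
  label : IsPackingLabel R
  tangent : ∀ v k, dist (z v) (z (v + dir k)) = R v + R (v + dir k)
  oriented : ∀ v k, 0 < ((z (v + dir (k + 1)) - z v) / (z (v + dir k) - z v)).im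

/-- The seven vertices of the flower at `v`: the vertex `v` and its six neighbours. -/
def flower (v : ℤ × ℤ) : Set (ℤ × ℤ) := {w | w = v ∨ ∃ k, w = v + dir k}

/-- The packing is locally univalent: the seven circles of every flower have pairwise disjoint
interiors. -/
def IsLocallyUnivalent (z : ℤ × ℤ → ℂ) (R : ℤ × ℤ → ℝ) : Prop :=
  ∀ v, ∀ w ∈ flower v, ∀ w' ∈ flower v, w ≠ w' →
    Disjoint (Metric.ball (z w) (R w)) (Metric.ball (z w') (R w'))

theorem dir_inj : Function.Injective dir := by decide

theorem dir_succ (k : Fin 6) : dir k + dir (k + 2) = dir (k + 1) := by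
  revert k; decide

theorem dir_opp (k : Fin 6) : dir k + dir (k + 3) = 0 := by
  revert k; decide

/-- index `k₀ + 1 + i` modulo six -/
def idx (k₀ : Fin 6) (i : ℕ) : Fin 6 := ⟨(k₀.val + 1 + i) % 6, Nat.mod_lt _ (by norm_num)⟩

theorem idx_succ (k₀ : Fin 6) (i : ℕ) : idx k₀ (i + 1) = idx k₀ i + 1 := by
  apply Fin.ext
  rw [Fin.val_add]
  simp only [idx, Fin.val_one]
  omega

theorem idx_zero (k₀ : Fin 6) : idx k₀ 0 = k₀ + 1 := by
  apply Fin.ext
  rw [Fin.val_add]
  show (k₀.val + 1 + 0) % 6 = (k₀.val + 1) % 6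
  rfl

theorem idx_five (k₀ : Fin 6) : idx k₀ 5 = k₀ := by
  apply Fin.ext
  show (k₀.val + 1 + 5) % 6 = k₀.val
  omega

theorem idx_ne (k₀ : Fin 6) (i m : ℕ) (h0 : 0 < m) (h1 : m < 6) : idx k₀ i ≠ idx k₀ (i + m) := by
  intro h
  have := congrArg Fin.val h
  simp only [idx] at this
  omega

theorem idx_surj (k₀ k : Fin 6) : ∃ i ≤ 5, idx k₀ i = k := by
  refine ⟨(k.val + 11 - k₀.val) % 6, by omega, ?_⟩
  apply Fin.ext
  simp only [idx]
  omega

/-- Ring lemma. -/
theorem ring_lemma : ∃ δ > 0, ∀ (z : ℤ × ℤ → ℂ) (R : ℤ × ℤ → ℝ), IsCirclePacking z R →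
    IsLocallyUnivalent z R → ∀ v k, δ * R v ≤ R (v + dir k) := by
  obtain ⟨δ, hδ, hch⟩ := Pool.Agent.W596.Doyle.chain_bound 5 (1 / 4) (by norm_num)
  refine ⟨δ, hδ, ?_⟩
  intro z R hz hu v k
  obtain ⟨⟨hpos, hsum⟩, htan, -⟩ := hz
  set r := R v with hr
  have r0 : 0 < r := hpos v
  set s : Fin 6 → ℝ := fun k => R (v + dir k) with hs
  have s0 : ∀ k, 0 < s k := fun k => hpos _
  set w : Fin 6 → ℂ := fun k => z (v + dir k) - z v with hw
  set q : Fin 6 → ℝ := fun k => s k / (r + s k) with hq
  have q0 : ∀ k, 0 < q k := fun k => div_pos (s0 k) (add_pos r0 (s0 k))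
  have q1 : ∀ k, q k ≤ 1 := fun k => by
    rw [hq]; simp only; rw [div_le_one (add_pos r0 (s0 k))]; linarith
  have nw : ∀ k, ‖w k‖ = r + s k := by
    intro k
    have := htan v k
    rwa [dist_comm, dist_eq_norm] at this
  have nadj : ∀ k, ‖w k - w (k + 1)‖ = s k + s (k + 1) := by
    intro k
    have h := htan (v + dir k) (k + 2)
    rw [add_assoc, dir_succ, dist_eq_norm] at h
    rw [hw]; simp only
    rw [sub_sub_sub_cancel_right]
    exact h
  have nne : ∀ k l, k ≠ l → s k + s l ≤ ‖w k - w l‖ := by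
    intro k l hkl
    have h := hu v (v + dir k) (Or.inr ⟨k, rfl⟩) (v + dir l) (Or.inr ⟨l, rfl⟩) (by
      intro h; exact hkl (dir_inj (add_left_cancel h)))
    rw [disjoint_ball_ball_iff (s0 k) (s0 l), dist_eq_norm] at h
    rw [hw]; simp only
    rw [sub_sub_sub_cancel_right]
    exact h
  -- a large pair
  obtain ⟨k₀, hk₀⟩ : ∃ k₀ : Fin 6, 1 / 4 ≤ q k₀ * q (k₀ + 1) := by
    by_contra hcon
    push Not at hcon
    have hlt : ∀ k, angle r (s k) (s (k + 1)) < Real.pi / 3 := by
      intro k
      have h1 : ((r + s k) ^ 2 + (r + s (k + 1)) ^ 2 - (s k + s (k + 1)) ^ 2) /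
          (2 * (r + s k) * (r + s (k + 1))) = 1 - 2 * (q k * q (k + 1)) := by
        have a1 : r + s k ≠ 0 := (add_pos r0 (s0 k)).ne'
        have a2 : r + s (k + 1) ≠ 0 := (add_pos r0 (s0 (k + 1))).ne'
        rw [hq]; simp only
        field_simp
        ring
      unfold angle
      rw [h1]
      have h2 : Real.arccos (1 / 2) = Real.pi / 3 := by
        rw [← Real.cos_pi_div_three, Real.arccos_cos (by positivity) (by
          linarith [Real.pi_pos])]
      rw [← h2]
      apply Real.strictAntiOn_arccos ⟨by norm_num, by norm_num⟩ ⟨?_, ?_⟩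
      · linarith [hcon k]
      · have := mul_le_one₀ (q1 k) (q0 (k + 1)).le (q1 (k + 1))
        linarith
      · have := mul_pos (q0 k) (q0 (k + 1))
        linarith
    have h3 := hsum v
    unfold angleSum at h3
    have h4 : ∑ k : Fin 6, angle (R v) (R (v + dir k)) (R (v + dir (k + 1))) <
        ∑ _k : Fin 6, Real.pi / 3 :=
      Finset.sum_lt_sum_of_nonempty ⟨0, Finset.mem_univ _⟩ (fun k _ => hlt k)
    rw [h3, Finset.sum_const, Finset.card_univ, Fintype.card_fin, nsmul_eq_mul] at h4
    norm_num at h4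
    linarith
  have hqa : 1 / 4 ≤ q k₀ := hk₀.trans (mul_le_of_le_one_right (q0 _).le (q1 _))
  have hqb : 1 / 4 ≤ q (k₀ + 1) := hk₀.trans (mul_le_of_le_one_left (q0 _).le (q1 _))
  obtain ⟨i, hi, hik⟩ := idx_surj k₀ k
  have hres := hch (fun i => q (idx k₀ i)) (fun i => ⟨q0 _, q1 _⟩) (by
    intro i m hm him
    have h1 := Pool.Agent.W596.Doyle.chord_ge r0 (s0 _) (s0 _) (nw (idx k₀ i)) (nw (idx k₀ (i + m)))
      (nne _ _ (idx_ne k₀ i m hm (by omega)))
    have h2 := Pool.Agent.W596.Doyle.chord_chain
      (fun i => w (idx k₀ i) / (‖w (idx k₀ i)‖ : ℂ)) i m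
    have h3 : ∀ k ∈ Finset.range m, ‖w (idx k₀ (i + k)) / (‖w (idx k₀ (i + k))‖ : ℂ) -
        w (idx k₀ (i + k + 1)) / (‖w (idx k₀ (i + k + 1))‖ : ℂ)‖ =
        2 * Real.sqrt (q (idx k₀ (i + k)) * q (idx k₀ (i + k + 1))) := by
      intro k _
      apply Pool.Agent.W596.Doyle.chord_eq r0 (s0 _) (s0 _) (nw _) (nw _)
      rw [idx_succ]
      exact nadj _
    rw [Finset.sum_congr rfl h3, ← Finset.mul_sum] at h2
    have h4 := h1.trans h2
    linarith) (by rw [idx_zero]; exact hqb) (by rw [idx_five]; exact hqa) i hi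
  rw [hik] at hres
  have h5 : δ ≤ s k / (r + s k) := hres
  rw [le_div_iff₀ (add_pos r0 (s0 k))] at h5
  have : 0 < δ * s k := mul_pos hδ (s0 k)
  have h6 : δ * r ≤ s k := by nlinarith
  exact h6

theorem shift_label {R : ℤ × ℤ → ℝ} (hR : IsPackingLabel R) (c v : ℤ × ℤ) :
    angleSum (fun v => R (v + c)) v = 2 * Real.pi := by
  rw [← hR.2 (v + c)]
  unfold angleSum
  simp only [add_right_comm]

theorem label_form {R : ℤ × ℤ → ℝ} (hR : IsPackingLabel R) {δ : ℝ} (hδ : 0 < δ)
    (hb : ∀ v k, δ * R v ≤ R (v + dir k)) (c : ℤ × ℤ) (k : Fin 6) (hc : c = dir k) (w : ℤ × ℤ) :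
    (Real.log (R (w + c)) - Real.log (R w) =
      Real.log (R (w + (1, 0) + c)) - Real.log (R (w + (1, 0)))) ∧
    (Real.log (R (w + c)) - Real.log (R w) =
      Real.log (R (w + (0, 1) + c)) - Real.log (R (w + (0, 1)))) := by
  apply Pool.Agent.W596.Doyle.liouville (R := R) (R' := fun v => R (v + c)) hR.1
    (fun v => hR.1 _) (fun v => ?_) (M := -Real.log δ) (fun v => ?_) w
  · have h1 := hR.2 v
    have h2 := shift_label hR c v
    exact h1.trans h2.symm
  · have h1 : δ * R v ≤ R (v + c) := by rw [hc]; exact hb v k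
    have h2 : δ * R (v + c) ≤ R v := by
      have := hb (v + c) (k + 3)
      rw [hc, add_assoc, dir_opp, add_zero] at this
      rw [hc]
      exact this
    have p1 := hR.1 v
    have p2 := hR.1 (v + c)
    have l1 := Real.log_le_log (mul_pos hδ p1) h1
    have l2 := Real.log_le_log (mul_pos hδ p2) h2
    rw [Real.log_mul hδ.ne' p1.ne'] at l1
    rw [Real.log_mul hδ.ne' p2.ne'] at l2
    rw [abs_le]
    constructor <;> linarith

/-- a function on `ℤ` invariant under the shift by one is constant -/
theorem int_const {α : Type*} (f : ℤ → α) (h : ∀ n, f (n + 1) = f n) (n : ℤ) : f n = f 0 := by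
  induction n using Int.induction_on with
  | zero => rfl
  | succ n ih => rw [h, ih]
  | pred n ih =>
    have := h (-(n : ℤ) - 1)
    rw [sub_add_cancel] at this
    rw [← this, ih]

theorem const_of_shift {f : ℤ × ℤ → ℝ} (h1 : ∀ w, f w = f (w + (1, 0)))
    (h2 : ∀ w, f w = f (w + (0, 1))) (w : ℤ × ℤ) : f w = f 0 := by
  obtain ⟨n, m⟩ := w
  have a1 : f (n, m) = f (0, m) := int_const (fun n => f (n, m)) (fun n => by
    have := h1 (n, m)
    rw [Prod.mk_add_mk, add_zero] at this
    exact this.symm) n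
  have a2 : f (0, m) = f (0, 0) := int_const (fun m => f (0, m)) (fun m => by
    have := h2 (0, m)
    rw [Prod.mk_add_mk, add_zero] at this
    exact this.symm) m
  rw [a1, a2]; rfl

/-- `exp (i π / 3)` -/
noncomputable def om : ℂ := ⟨1 / 2, Real.sqrt 3 / 2⟩

theorem om_sq : om * om = om - 1 := by
  have h : Real.sqrt 3 * Real.sqrt 3 = 3 := Real.mul_self_sqrt (by norm_num)
  apply Complex.ext
  · simp only [om, Complex.mul_re, Complex.sub_re, Complex.one_re]
    linear_combination (-1 / 4) * h
  · simp only [om, Complex.mul_im, Complex.sub_im, Complex.one_im]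
    ring

/-- the lattice point of a vertex -/
noncomputable def lat (v : ℤ × ℤ) : ℂ := v.1 + v.2 * om

theorem lat_sub (v w : ℤ × ℤ) : lat (v + w) - lat v = lat w := by
  unfold lat
  simp only [Prod.fst_add, Prod.snd_add]
  push_cast; ring

theorem lat_normSq (v : ℤ × ℤ) : Complex.normSq (lat v) = ((v.1 ^ 2 + v.1 * v.2 + v.2 ^ 2 : ℤ) : ℝ) := by
  have h : Real.sqrt 3 * Real.sqrt 3 = 3 := Real.mul_self_sqrt (by norm_num)
  rw [Complex.normSq_apply]
  simp only [lat, om, Complex.add_re, Complex.add_im, Complex.mul_re, Complex.mul_im,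
    Complex.intCast_re, Complex.intCast_im]
  push_cast
  linear_combination ((v.2 : ℝ) ^ 2 / 4) * h

theorem lat_dir (k : Fin 6) : lat (dir (k + 1)) = om * lat (dir k) ∧ ‖lat (dir k)‖ = 1 := by
  constructor
  · fin_cases k <;> simp [lat, dir]
    all_goals first
      | linear_combination om_sq
      | linear_combination -om_sq
  · have h : Complex.normSq (lat (dir k)) = 1 := by
      rw [lat_normSq]
      have : (dir k).1 ^ 2 + (dir k).1 * (dir k).2 + (dir k).2 ^ 2 = 1 := by revert k; decide
      rw [this]; norm_num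
    rw [Complex.norm_def, h, Real.sqrt_one]

/-- The definitions are not vacuous: the regular hexagonal packing is a locally univalent circle
packing in the sense of this file. -/
theorem regular_packing : IsCirclePacking (fun v => 2 * lat v) (fun _ => 1) ∧
    IsLocallyUnivalent (fun v => 2 * lat v) (fun _ => 1) := by
  have hd : ∀ v w : ℤ × ℤ, (2 * lat (v + w) - 2 * lat v : ℂ) = 2 * lat w := by
    intro v w; rw [← mul_sub, lat_sub]
  refine ⟨⟨⟨fun _ => one_pos, fun v => ?_⟩, fun v k => ?_, fun v k => ?_⟩, ?_⟩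
  · unfold angleSum angle
    have : (((1:ℝ) + 1) ^ 2 + (1 + 1) ^ 2 - (1 + 1) ^ 2) / (2 * (1 + 1) * (1 + 1)) = 1 / 2 := by
      norm_num
    simp only [this]
    have h2 : Real.arccos (1 / 2) = Real.pi / 3 := by
      rw [← Real.cos_pi_div_three, Real.arccos_cos (by positivity) (by
        linarith [Real.pi_pos])]
    rw [h2, Finset.sum_const, Finset.card_univ, Fintype.card_fin, nsmul_eq_mul]
    ring
  · rw [dist_comm, dist_eq_norm, hd, norm_mul, (lat_dir k).2]
    norm_num
  · rw [hd, hd, (lat_dir k).1]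
    have h0 : lat (dir k) ≠ 0 := by
      intro h
      have := (lat_dir k).2
      rw [h, norm_zero] at this
      exact zero_ne_one this
    have : 2 * (om * lat (dir k)) / (2 * lat (dir k)) = om := by
      field_simp
    rw [this]
    simp only [om]
    positivity
  · intro v w _ w' _ hne
    simp only
    rw [disjoint_ball_ball_iff one_pos one_pos, dist_comm, dist_eq_norm]
    have e : w' = w + (w' - w) := by abel
    rw [e, hd, norm_mul]
    set x := w' - w with hx
    have hx0 : x ≠ 0 := sub_ne_zero.2 (Ne.symm hne)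
    have h1 : (1 : ℝ) ≤ Complex.normSq (lat x) := by
      rw [lat_normSq]
      have : (1 : ℤ) ≤ x.1 ^ 2 + x.1 * x.2 + x.2 ^ 2 := by
        by_contra hcon
        push Not at hcon
        have h3 : 3 * x.1 ^ 2 + (x.1 + 2 * x.2) ^ 2 ≤ 0 := by nlinarith
        have h4 : x.1 = 0 := by nlinarith [sq_nonneg (x.1 + 2 * x.2), sq_nonneg x.1]
        have h5 : x.2 = 0 := by
          rw [h4] at h3
          nlinarith [sq_nonneg x.2]
        exact hx0 (Prod.ext h4 h5)
      exact_mod_cast this
    have h2 : 1 ≤ ‖lat x‖ := by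
      rw [Complex.norm_def]
      exact Real.one_le_sqrt.2 h1
    have h3 : ‖(2 : ℂ)‖ = 2 := by norm_num
    rw [h3]
    linarith

/-- Every locally univalent circle packing for the hexagonal complex has a label of the form
`R (n, m) = c a ^ n b ^ m` with `a, b, c > 0`: it is a regular hexagonal packing or a Doyle spiral. -/
theorem result (z : ℤ × ℤ → ℂ) (R : ℤ × ℤ → ℝ) (hz : IsCirclePacking z R)
    (hu : IsLocallyUnivalent z R) :
    ∃ a b c : ℝ, 0 < a ∧ 0 < b ∧ 0 < c ∧ ∀ n m : ℤ, R (n, m) = c * a ^ n * b ^ m := by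
  obtain ⟨δ, hδ, hring⟩ := ring_lemma
  have hb := hring z R hz hu
  have hpos := hz.label.1
  have A := label_form hz.label hδ hb (1, 0) 0 rfl
  have B := label_form hz.label hδ hb (0, 1) 1 rfl
  have A' : ∀ w, Real.log (R (w + (1, 0))) - Real.log (R w) =
      Real.log (R (1, 0)) - Real.log (R 0) := by
    intro w
    have := const_of_shift (f := fun w => Real.log (R (w + (1, 0))) - Real.log (R w))
      (fun w => (A w).1) (fun w => (A w).2) w
    simpa using this
  have B' : ∀ w, Real.log (R (w + (0, 1))) - Real.log (R w) =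
      Real.log (R (0, 1)) - Real.log (R 0) := by
    intro w
    have := const_of_shift (f := fun w => Real.log (R (w + (0, 1))) - Real.log (R w))
      (fun w => (B w).1) (fun w => (B w).2) w
    simpa using this
  set α := Real.log (R (1, 0)) - Real.log (R 0) with hα
  set β := Real.log (R (0, 1)) - Real.log (R 0) with hβ
  have hlog : ∀ n m : ℤ, Real.log (R (n, m)) = Real.log (R 0) + n * α + m * β := by
    intro n m
    have h1 : Real.log (R (n, m)) - (n * α + m * β) = Real.log (R (0, m)) - m * β := by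
      have := int_const (fun n : ℤ => Real.log (R (n, m)) - (n * α + m * β)) (fun n => by
        have h := A' (n, m)
        rw [Prod.mk_add_mk, add_zero] at h
        push_cast
        linarith) n
      simpa using this
    have h2 : Real.log (R (0, m)) - m * β = Real.log (R 0) := by
      have := int_const (fun m : ℤ => Real.log (R (0, m)) - m * β) (fun m => by
        have h := B' (0, m)
        rw [Prod.mk_add_mk, add_zero] at h
        push_cast
        linarith) m
      have e0 : R (0, 0) = R 0 := rfl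
      rw [this, e0]
      simp
    linarith
  refine ⟨Real.exp α, Real.exp β, R 0, Real.exp_pos _, Real.exp_pos _, hpos 0, ?_⟩
  intro n m
  rw [← Real.exp_log (hpos (n, m)), hlog n m, Real.exp_add, Real.exp_add, Real.exp_log (hpos 0),
    mul_comm (n : ℝ) α, mul_comm (m : ℝ) β, Real.exp_mul, Real.exp_mul, Real.rpow_intCast,
    Real.rpow_intCast]

end Pool.Agent.Results.MP_5725d1_gt.OnlyDoyleSpirals
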